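import Pool.Agent.Helper88.Ip.Pw2a
import Pool.Agent.Helper33.Ip.One

/-!
# Package LR4: zeros of correlations with a stationary wave (not a result)
-/

set_option autoImplicit false
set_option linter.unusedSectionVars false
open MeasureTheory Filter Topology ProbabilityTheory
open scoped ContDiff ENNReal InnerProductSpace

namespace Pool.Agent.Helper12.Lr

open Pool.Agent.N661.BR (MW J0 IsStationary shift meas_eval meas_shift IsGaussianLaw lin meas_lin)
open Pool.Agent.Helper37.BC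
open Pool.Agent.Helper26.Ip
open Complex (I)

noncomputable section

/-- LR4a -/
theorem J0_neg : ∃ r : ℝ, 0 ≤ r ∧ J0 r ≤ 0 := by
  by_contra hcon
  push Not at hcon
  obtain ⟨d, hd⟩ : ∃ d : ℝ, d = ∫ r in (0:ℝ)..1, r * J0 r := ⟨_, rfl⟩
  have hcont : Continuous fun r : ℝ => r * J0 r := continuous_id'.mul J0_cont
  have hd0 : 0 < d := by
    rw [hd]
    refine intervalIntegral.intervalIntegral_pos_of_pos_on (hcont.intervalIntegrable _ _) ?_
      one_pos
    intro r hr
    exact mul_pos hr.1 (hcon r hr.1.le)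
  have hle : ∀ r : ℝ, 1 ≤ r → J0' r ≤ -(d / r) := by
    intro r hr
    have h1 := Pool.Agent.Helper88.Ip.int_rJ0 r
    have h2 : ∫ s in (0:ℝ)..r, s * J0 s =
        (∫ s in (0:ℝ)..1, s * J0 s) + ∫ s in (1:ℝ)..r, s * J0 s :=
      (intervalIntegral.integral_add_adjacent_intervals (hcont.intervalIntegrable _ _)
        (hcont.intervalIntegrable _ _)).symm
    have h3 : 0 ≤ ∫ s in (1:ℝ)..r, s * J0 s := by
      refine intervalIntegral.integral_nonneg hr fun s hs => ?_
      have hs0 : 0 ≤ s := zero_le_one.trans hs.1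
      exact mul_nonneg hs0 (hcon s hs0).le
    have h4 : d ≤ -(r * J0' r) := by
      rw [← h1, h2, ← hd]
      linarith
    have hr0 : 0 < r := by linarith
    rw [← neg_div, le_div_iff₀ hr0]
    linarith
  have hanti : AntitoneOn (fun r : ℝ => J0 r + d * Real.log r) (Set.Ici 1) := by
    refine antitoneOn_of_hasDerivWithinAt_nonpos (f' := fun r => J0' r + d * r⁻¹) (convex_Ici 1) ?_
      ?_ ?_
    · refine J0_cont.continuousOn.add (continuousOn_const.mul
        (Real.continuousOn_log.mono fun r hr => ?_))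
      have : (0:ℝ) < r := lt_of_lt_of_le one_pos hr
      exact this.ne'
    · intro r hr
      rw [interior_Ici] at hr
      have h0 : r ≠ 0 := (one_pos.trans hr).ne'
      exact ((J0_deriv r).fun_add ((Real.hasDerivAt_log h0).const_mul d)).hasDerivWithinAt
    · intro r hr
      rw [interior_Ici] at hr
      have h1 := hle r (le_of_lt hr)
      have h2 : d / r = d * r⁻¹ := div_eq_mul_inv _ _
      rw [h2] at h1
      linarith
  obtain ⟨r, hr1, hr2⟩ : ∃ r : ℝ, 1 ≤ r ∧ J0 1 / d < Real.log r := by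
    have h1 := (tendsto_atTop.1 Real.tendsto_log_atTop (J0 1 / d + 1)).and (eventually_ge_atTop 1)
    obtain ⟨r, h2, h3⟩ := h1.exists
    exact ⟨r, h3, by linarith⟩
  have h1 := hanti (Set.mem_Ici.2 le_rfl) (Set.mem_Ici.2 hr1) hr1
  simp only [Real.log_one, mul_zero, add_zero] at h1
  have h2 := hcon r (zero_le_one.trans hr1)
  rw [div_lt_iff₀ hd0] at hr2
  linarith

variable {μ : Measure MW} [IsProbabilityMeasure μ]

/-- LR4b -/
theorem zero_exists (hs : IsStationary μ) (h2 : Integrable (fun f : MW => f 0 ^ 2) μ)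
    (g : Lp ℝ 2 μ) : ∃ x : ℂ, ⟪g, V hs h2 x⟫_ℝ = 0 := by
  by_contra hcon
  push Not at hcon
  obtain ⟨u, hu⟩ : ∃ u : ℂ → ℝ, u = fun x => ⟪V hs h2 x, g⟫_ℝ := ⟨_, rfl⟩
  have hc : Continuous u := by
    rw [hu]
    exact Pool.Agent.Helper33.Ip.cont_VV hs h2 g
  have hne : ∀ x, u x ≠ 0 := by
    intro x h
    rw [hu] at h
    exact hcon x (by rw [real_inner_comm]; exact h)
  obtain ⟨r, hr0, hr⟩ := J0_neg
  have hm := Pool.Agent.Helper88.Ip.V_mean hs h2 g 0 hr0
  have hm' : ∫ ψ in (0:ℝ)..(2 * Real.pi), u (0 + r * Complex.exp (ψ * I)) =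
      2 * Real.pi * J0 r * u 0 := by
    rw [hu]
    exact hm
  have hcc : Continuous fun ψ : ℝ => u (0 + r * Complex.exp (ψ * I)) := by fun_prop
  have h2pi : (0:ℝ) < 2 * Real.pi := by positivity
  have hsign : (∀ x, 0 < u x) ∨ ∀ x, u x < 0 := by
    by_contra hn
    push Not at hn
    obtain ⟨⟨x, hx⟩, ⟨y, hy⟩⟩ := hn
    have hpre : IsPreconnected (Set.univ : Set ℂ) := isPreconnected_univ
    obtain ⟨z, -, hz⟩ := hpre.intermediate_value (Set.mem_univ x) (Set.mem_univ y)
      hc.continuousOn ⟨hx, hy⟩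
    exact hne z hz
  rcases hsign with h | h
  · have h1 : 0 < ∫ ψ in (0:ℝ)..(2 * Real.pi), u (0 + r * Complex.exp (ψ * I)) :=
      intervalIntegral.intervalIntegral_pos_of_pos_on (hcc.intervalIntegrable _ _)
        (fun ψ _ => h _) h2pi
    rw [hm'] at h1
    have h3 : 2 * Real.pi * J0 r * u 0 ≤ 0 :=
      mul_nonpos_of_nonpos_of_nonneg (mul_nonpos_of_nonneg_of_nonpos h2pi.le hr) (h 0).le
    linarith
  · have h1 : 0 < ∫ ψ in (0:ℝ)..(2 * Real.pi), -u (0 + r * Complex.exp (ψ * I)) :=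
      intervalIntegral.intervalIntegral_pos_of_pos_on (hcc.neg.intervalIntegrable _ _)
        (fun ψ _ => neg_pos.2 (h _)) h2pi
    rw [intervalIntegral.integral_neg, hm'] at h1
    have h3 : 0 ≤ 2 * Real.pi * J0 r * u 0 :=
      mul_nonneg_of_nonpos_of_nonpos (mul_nonpos_of_nonneg_of_nonpos h2pi.le hr) (h 0).le
    linarith

end

end Pool.Agent.Helper12.Lr
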